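import Pool.Agent.Y970.PX.Stm
import Pool.Agent.W505.PV.VF

/-! # PX-YC : few `y` are close to a given polynomial `H` through few coordinates -/

set_option autoImplicit false

namespace Pool.Agent.Y987.PX.YC

open Finset Polynomial Pool.Agent.W89.VP Pool.Agent.Y970.PX

lemma eval_bound (N K : ℕ) (H : ℤ[X]) (hd : H.natDegree ≤ K)
    (hc : ∀ l, (H.coeff l).natAbs ≤ K * N ^ K) (z : ℕ) (hz1 : 1 ≤ N) (hz : z ≤ N) :
    (H.eval (z : ℤ)).natAbs ≤ (K + 1) * K * N ^ (2 * K) := by
  rw [Polynomial.eval_eq_sum_range' (Nat.lt_succ_of_le hd)]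
  refine (Int.natAbs_sum_le _ _).trans ?_
  have h : ∀ l ∈ range (K + 1), (H.coeff l * (z : ℤ) ^ l).natAbs ≤ K * N ^ (2 * K) := by
    intro l hl
    rw [Int.natAbs_mul, Int.natAbs_pow, Int.natAbs_natCast]
    have hl' : l ≤ K := by simpa [Nat.lt_succ_iff] using hl
    calc (H.coeff l).natAbs * z ^ l ≤ (K * N ^ K) * N ^ K := by
          refine Nat.mul_le_mul (hc l) ?_
          exact (Nat.pow_le_pow_left hz l).trans (Nat.pow_le_pow_right hz1 hl')
      _ = K * N ^ (2 * K) := by rw [mul_assoc, ← pow_add, two_mul]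
  refine (Finset.sum_le_sum h).trans ?_
  rw [Finset.sum_const, Finset.card_range, smul_eq_mul, mul_assoc]

lemma gcd_dvd (H : ℤ[X]) (x y : ℕ) :
    (Nat.gcd (H.eval (y : ℤ)).natAbs (ds x y)) ∣ (H.eval (x : ℤ)).natAbs := by
  have h1 : ((Nat.gcd (H.eval (y : ℤ)).natAbs (ds x y) : ℕ) : ℤ) ∣ H.eval (y : ℤ) :=
    Int.natCast_dvd.2 (Nat.gcd_dvd_left _ _)
  have h2 : ((Nat.gcd (H.eval (y : ℤ)).natAbs (ds x y) : ℕ) : ℤ) ∣ (x : ℤ) - y :=
    Int.natCast_dvd.2 (Nat.gcd_dvd_right _ _)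
  have h3 : (x : ℤ) - y ∣ H.eval (x : ℤ) - H.eval (y : ℤ) := Polynomial.sub_dvd_eval_sub _ _ _
  have h4 := dvd_add (h2.trans h3) h1
  rw [sub_add_cancel] at h4
  exact Int.natCast_dvd.1 h4

open scoped Classical in
lemma card_bound (s N : ℕ) (H : ℤ[X]) (A B : Finset (Fin s)) (M : ℕ) (hM : 1 ≤ M)
    (hMd : ∀ z : ℕ, z ≤ N → (H.eval (z : ℤ)).natAbs.divisors.card ≤ M) :
    ((Fintype.piFinset fun _ : Fin s => Finset.Icc 1 N).filter (fun y : Fin s → ℕ =>
      ∃ x : Fin s → ℕ, (∀ i, 1 ≤ x i ∧ x i ≤ N) ∧ (∀ i, H.eval (x i : ℤ) ≠ 0) ∧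
        ∀ j, j ∉ B → N ≤ A.lcm (fun i => Nat.gcd (H.eval (y j : ℤ)).natAbs (ds (x i) (y j))))).card
      ≤ N ^ A.card * (N ^ B.card * M ^ (s * A.card)) := by
  set S := ((Fintype.piFinset fun _ : Fin s => Finset.Icc 1 N).filter (fun y : Fin s → ℕ =>
      ∃ x : Fin s → ℕ, (∀ i, 1 ≤ x i ∧ x i ≤ N) ∧ (∀ i, H.eval (x i : ℤ) ≠ 0) ∧
        ∀ j, j ∉ B → N ≤ A.lcm (fun i => Nat.gcd (H.eval (y j : ℤ)).natAbs (ds (x i) (y j)))))
    with hS
  have hex : ∀ y : Fin s → ℕ, ∃ x : Fin s → ℕ, y ∈ S →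
      ((∀ i, 1 ≤ x i ∧ x i ≤ N) ∧ (∀ i, H.eval (x i : ℤ) ≠ 0) ∧
        ∀ j, j ∉ B → N ≤ A.lcm (fun i => Nat.gcd (H.eval (y j : ℤ)).natAbs (ds (x i) (y j)))) := by
    intro y
    by_cases hy : y ∈ S
    · obtain ⟨x, hx⟩ := (Finset.mem_filter.1 hy).2
      exact ⟨x, fun _ => hx⟩
    · exact ⟨y, fun h => absurd h hy⟩
  choose f hf using hex
  let U : Finset (Fin s → ℕ) := Fintype.piFinset fun i : Fin s => if i ∈ A then Finset.Icc 1 N else {1}
  let V : Finset (Fin s → ℕ) := Fintype.piFinset fun i : Fin s => if i ∈ B then Finset.Icc 1 N else {1}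
  let P : (Fin s → ℕ) → Finset (Fin s → Fin s → ℕ) := fun u =>
    Fintype.piFinset fun i : Fin s => Fintype.piFinset fun _ : Fin s =>
      if i ∈ A then (H.eval (u i : ℤ)).natAbs.divisors else {1}
  let cu : (Fin s → ℕ) → (Fin s → ℕ) := fun y i => if i ∈ A then f y i else 1
  let cv : (Fin s → ℕ) → (Fin s → ℕ) := fun y j => if j ∈ B then y j else 1
  let ch : (Fin s → ℕ) → (Fin s → Fin s → ℕ) := fun y i j =>
    if i ∈ A then Nat.gcd (H.eval (y j : ℤ)).natAbs (ds (f y i) (y j)) else 1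
  have hcard : S.card ≤ (U.sigma fun u => V ×ˢ P u).card := by
    apply Finset.card_le_card_of_injOn (fun y => (⟨cu y, (cv y, ch y)⟩ :
      Σ _ : (Fin s → ℕ), (Fin s → ℕ) × (Fin s → Fin s → ℕ)))
    · intro y hy
      have hy : y ∈ S := hy
      obtain ⟨h1, h2, h3⟩ := hf y hy
      have hyN := Fintype.mem_piFinset.1 (Finset.mem_filter.1 hy).1
      simp only [Finset.coe_sigma, Finset.mem_coe, Finset.mem_product,
        Set.mem_sigma_iff]
      refine ⟨?_, ?_, ?_⟩
      · rw [Fintype.mem_piFinset]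
        intro i
        by_cases hi : i ∈ A
        · simp only [cu, hi, if_true]
          exact Finset.mem_Icc.2 (h1 i)
        · simp [cu, hi]
      · rw [Fintype.mem_piFinset]
        intro i
        by_cases hi : i ∈ B
        · simp only [cv, hi, if_true]
          exact hyN i
        · simp [cv, hi]
      · rw [Fintype.mem_piFinset]
        intro i
        rw [Fintype.mem_piFinset]
        intro j
        by_cases hi : i ∈ A
        · simp only [ch, cu, hi, if_true]
          rw [Nat.mem_divisors]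
          refine ⟨gcd_dvd H _ _, ?_⟩
          rw [Int.natAbs_ne_zero]
          exact h2 i
        · simp [ch, hi]
    · intro y hy y' hy' he
      have hy : y ∈ S := hy
      have hy' : y' ∈ S := hy'
      obtain ⟨h1, h2, h3⟩ := hf y hy
      obtain ⟨h1', h2', h3'⟩ := hf y' hy'
      have hyN := Fintype.mem_piFinset.1 (Finset.mem_filter.1 hy).1
      have hyN' := Fintype.mem_piFinset.1 (Finset.mem_filter.1 hy').1
      simp only [Sigma.mk.injEq, heq_eq_eq, Prod.mk.injEq] at he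
      obtain ⟨e1, e2, e3⟩ := he
      have ex : ∀ i ∈ A, f y i = f y' i := by
        intro i hi
        have := congrFun e1 i
        simpa [cu, hi] using this
      funext j
      by_cases hj : j ∈ B
      · have := congrFun e2 j
        simpa [cv, hj] using this
      · have hl := h3 j hj
        have hdvd : A.lcm (fun i => Nat.gcd (H.eval (y j : ℤ)).natAbs (ds (f y i) (y j))) ∣
            ((y j : ℤ) - y' j).natAbs := by
          apply Finset.lcm_dvd
          intro i hi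
          have h5 : Nat.gcd (H.eval (y j : ℤ)).natAbs (ds (f y i) (y j))
              = Nat.gcd (H.eval (y' j : ℤ)).natAbs (ds (f y' i) (y' j)) := by
            have := congrFun (congrFun e3 i) j
            simpa [ch, hi] using this
          have h6 : ((Nat.gcd (H.eval (y j : ℤ)).natAbs (ds (f y i) (y j)) : ℕ) : ℤ) ∣
              (f y i : ℤ) - y j := Int.natCast_dvd.2 (Nat.gcd_dvd_right _ _)
          have h7 : ((Nat.gcd (H.eval (y j : ℤ)).natAbs (ds (f y i) (y j)) : ℕ) : ℤ) ∣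
              (f y i : ℤ) - y' j := by
            rw [h5, ex i hi]
            exact Int.natCast_dvd.2 (Nat.gcd_dvd_right _ _)
          have h8 := dvd_sub h7 h6
          have e : (f y i : ℤ) - y' j - ((f y i : ℤ) - y j) = (y j : ℤ) - y' j := by ring
          rw [e] at h8
          exact Int.natCast_dvd.1 h8
        by_contra hne
        have hne' : ((y j : ℤ) - y' j).natAbs ≠ 0 := by
          rw [Int.natAbs_ne_zero, sub_ne_zero]
          exact_mod_cast hne
        have hle := Nat.le_of_dvd (Nat.pos_of_ne_zero hne') hdvd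
        have b1 := Finset.mem_Icc.1 (hyN j)
        have b2 := Finset.mem_Icc.1 (hyN' j)
        omega
  refine hcard.trans ?_
  rw [Finset.card_sigma]
  have hU : U.card = N ^ A.card := by
    simp only [U, Fintype.card_piFinset]
    have : ∀ i : Fin s, (if i ∈ A then Finset.Icc 1 N else ({1} : Finset ℕ)).card
        = if i ∈ A then N else 1 := by
      intro i
      split_ifs
      · simp
      · simp
    simp only [this]
    rw [Finset.prod_ite_mem, Finset.univ_inter, Finset.prod_const]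
  have hV : V.card = N ^ B.card := by
    simp only [V, Fintype.card_piFinset]
    have : ∀ i : Fin s, (if i ∈ B then Finset.Icc 1 N else ({1} : Finset ℕ)).card
        = if i ∈ B then N else 1 := by
      intro i
      split_ifs
      · simp
      · simp
    simp only [this]
    rw [Finset.prod_ite_mem, Finset.univ_inter, Finset.prod_const]
  have hP : ∀ u ∈ U, (V ×ˢ P u).card ≤ N ^ B.card * M ^ (s * A.card) := by
    intro u hu
    rw [Finset.card_product, hV]
    refine Nat.mul_le_mul_left _ ?_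
    simp only [P, Fintype.card_piFinset]
    have hb : ∀ i : Fin s, (∏ _j : Fin s, (if i ∈ A then (H.eval (u i : ℤ)).natAbs.divisors
        else ({1} : Finset ℕ)).card) ≤ if i ∈ A then M ^ s else 1 := by
      intro i
      split_ifs with hi
      · rw [Finset.prod_const, Finset.card_univ, Fintype.card_fin]
        refine Nat.pow_le_pow_left (hMd _ ?_) s
        have := Fintype.mem_piFinset.1 hu i
        simp only [hi, if_true] at this
        exact (Finset.mem_Icc.1 this).2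
      · simp
    refine (Finset.prod_le_prod' fun i _ => hb i).trans ?_
    rw [Finset.prod_ite_mem, Finset.univ_inter, Finset.prod_const, ← pow_mul]
  refine (Finset.sum_le_sum hP).trans ?_
  rw [Finset.sum_const, smul_eq_mul, hU]

open scoped Classical in
theorem main : YCStm := by
  intro s T b K ε hε
  set e : ℝ := ε / ((2 * K + 1) * (T * s + 1)) with he
  have hpos : (0 : ℝ) < (2 * K + 1) * (T * s + 1) := by positivity
  have hepos : 0 < e := div_pos hε hpos
  obtain ⟨C1, hC1, hdiv⟩ := Pool.Agent.W505.PV.VF.mainDIV e hepos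
  set C2 : ℝ := 1 + (1 + C1 * ((K + 1) * K : ℝ) ^ e) with hC2
  have hK0 : (0 : ℝ) ≤ (K + 1) * K := by positivity
  have hC2pos : 1 ≤ C2 := by
    have : 0 ≤ C1 * ((K + 1) * K : ℝ) ^ e := by positivity
    rw [hC2]; linarith
  refine ⟨C2 ^ (s * T), by positivity, ?_⟩
  intro N hN H hdeg hcoef A B hA hB
  have hN1 : (1 : ℝ) ≤ N := by exact_mod_cast hN
  have hN0 : (0 : ℝ) ≤ N := by linarith
  -- divisor bound
  set M : ℕ := ⌊C2 * (N : ℝ) ^ ((2 * K : ℝ) * e)⌋₊ with hM
  have hNe : (1 : ℝ) ≤ (N : ℝ) ^ ((2 * K : ℝ) * e) := Real.one_le_rpow hN1 (by positivity)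
  have hM1 : 1 ≤ M := by
    rw [hM, Nat.one_le_floor_iff]
    nlinarith
  have hMle : (M : ℝ) ≤ C2 * (N : ℝ) ^ ((2 * K : ℝ) * e) := Nat.floor_le (by positivity)
  have hMd : ∀ z : ℕ, z ≤ N → (H.eval (z : ℤ)).natAbs.divisors.card ≤ M := by
    intro z hz
    rcases Nat.eq_zero_or_pos (H.eval (z : ℤ)).natAbs with h0 | hp
    · rw [h0]; simp
    · rw [hM]
      apply Nat.le_floor
      refine (hdiv _ hp).trans ?_
      have h1 : (((H.eval (z : ℤ)).natAbs : ℕ) : ℝ) ≤ ((K + 1) * K : ℝ) * (N : ℝ) ^ (2 * K) := by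
        exact_mod_cast eval_bound N K H hdeg hcoef z hN hz
      have h2 : (((H.eval (z : ℤ)).natAbs : ℕ) : ℝ) ^ e
          ≤ ((K + 1) * K : ℝ) ^ e * (N : ℝ) ^ ((2 * K : ℝ) * e) := by
        calc (((H.eval (z : ℤ)).natAbs : ℕ) : ℝ) ^ e
            ≤ (((K + 1) * K : ℝ) * (N : ℝ) ^ (2 * K)) ^ e :=
              Real.rpow_le_rpow (by positivity) h1 hepos.le
          _ = ((K + 1) * K : ℝ) ^ e * (N : ℝ) ^ ((2 * K : ℝ) * e) := by
              rw [Real.mul_rpow hK0 (by positivity), Real.rpow_mul hN0]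
              congr 2
              rw [← Real.rpow_natCast]; push_cast; ring_nf
      calc C1 * (((H.eval (z : ℤ)).natAbs : ℕ) : ℝ) ^ e
          ≤ C1 * (((K + 1) * K : ℝ) ^ e * (N : ℝ) ^ ((2 * K : ℝ) * e)) :=
            mul_le_mul_of_nonneg_left h2 hC1.le
        _ = (C1 * ((K + 1) * K : ℝ) ^ e) * (N : ℝ) ^ ((2 * K : ℝ) * e) := by ring
        _ ≤ C2 * (N : ℝ) ^ ((2 * K : ℝ) * e) := by
            refine mul_le_mul_of_nonneg_right ?_ (by positivity)
            rw [hC2]; linarith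
  have hcb := card_bound s N H A B M hM1 hMd
  have hcb' : (((((Fintype.piFinset fun _ : Fin s => Finset.Icc 1 N).filter (fun y : Fin s → ℕ =>
      ∃ x : Fin s → ℕ, (∀ i, 1 ≤ x i ∧ x i ≤ N) ∧ (∀ i, H.eval (x i : ℤ) ≠ 0) ∧
        ∀ j, j ∉ B → N ≤ A.lcm (fun i => Nat.gcd (H.eval (y j : ℤ)).natAbs (ds (x i) (y j)))))).card : ℕ) : ℝ)
      ≤ (N : ℝ) ^ A.card * ((N : ℝ) ^ B.card * (M : ℝ) ^ (s * A.card)) := by
    exact_mod_cast hcb
  refine hcb'.trans ?_
  have a1 : (N : ℝ) ^ A.card ≤ (N : ℝ) ^ (T : ℝ) := by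
    rw [Real.rpow_natCast]; exact pow_le_pow_right₀ hN1 hA
  have a2 : (N : ℝ) ^ B.card ≤ (N : ℝ) ^ (b : ℝ) := by
    rw [Real.rpow_natCast]; exact pow_le_pow_right₀ hN1 hB
  have a3 : (M : ℝ) ^ (s * A.card) ≤ C2 ^ (s * T) * (N : ℝ) ^ ε := by
    have hM1' : (1 : ℝ) ≤ M := by exact_mod_cast hM1
    calc (M : ℝ) ^ (s * A.card) ≤ (M : ℝ) ^ (s * T) :=
          pow_le_pow_right₀ hM1' (Nat.mul_le_mul_left s hA)
      _ ≤ (C2 * (N : ℝ) ^ ((2 * K : ℝ) * e)) ^ (s * T) :=
          pow_le_pow_left₀ (by positivity) hMle _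
      _ = C2 ^ (s * T) * ((N : ℝ) ^ ((2 * K : ℝ) * e)) ^ (s * T) := mul_pow _ _ _
      _ ≤ C2 ^ (s * T) * (N : ℝ) ^ ε := by
          refine mul_le_mul_of_nonneg_left ?_ (by positivity)
          rw [← Real.rpow_natCast, ← Real.rpow_mul hN0]
          apply Real.rpow_le_rpow_of_exponent_le hN1
          rw [he]
          have : (2 * K : ℝ) * (ε / ((2 * K + 1) * (T * s + 1))) * ((s * T : ℕ) : ℝ)
              = ε * ((2 * K : ℝ) * (T * s) / ((2 * K + 1) * (T * s + 1))) := by
            push_cast; ring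
          rw [this]
          have h9 : (2 * K : ℝ) * (T * s) / ((2 * K + 1) * (T * s + 1)) ≤ 1 := by
            rw [div_le_one hpos]
            have : (0:ℝ) ≤ K := by positivity
            have : (0:ℝ) ≤ (T:ℝ) * s := by positivity
            nlinarith
          nlinarith
  calc (N : ℝ) ^ A.card * ((N : ℝ) ^ B.card * (M : ℝ) ^ (s * A.card))
      ≤ (N : ℝ) ^ (T : ℝ) * ((N : ℝ) ^ (b : ℝ) * (C2 ^ (s * T) * (N : ℝ) ^ ε)) := by
        gcongr
    _ = C2 ^ (s * T) * (N : ℝ) ^ ((T : ℝ) + b + ε) := by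
        rw [Real.rpow_add (by linarith), Real.rpow_add (by linarith)]
        ring

end Pool.Agent.Y987.PX.YC
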